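import Mathlib
import Pool.Agent.Lib.ContinuumBasics

set_option autoImplicit false

open Set Topology Filter

namespace Pool.Agent.DeltaConn

/-- The circle `ℝ / ℤ`. -/
abbrev Circ : Type := UnitAddCircle

lemma two_smul_eq {y z : Circ} (h : (2 : ℕ) • y = (2 : ℕ) • z) :
    y = z ∨ y = z + ((1 / 2 : ℝ) : Circ) := by
  induction y using QuotientAddGroup.induction_on with
  | H r =>
    induction z using QuotientAddGroup.induction_on with
    | H s =>
      have h1 : (((2 : ℕ) • (r - s) : ℝ) : Circ) = 0 := by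
        have : (((2 : ℕ) • (r - s) : ℝ) : Circ) = (2 : ℕ) • (r : Circ) - (2 : ℕ) • (s : Circ) := by
          rw [← AddCircle.coe_nsmul, ← AddCircle.coe_nsmul, ← AddCircle.coe_sub]
          congr 1
          simp only [nsmul_eq_mul]
          ring
        rw [this]
        exact sub_eq_zero.2 h
      obtain ⟨k, hk⟩ := (AddCircle.coe_eq_zero_iff (1 : ℝ)).1 h1
      simp only [zsmul_eq_mul, mul_one, nsmul_eq_mul, Nat.cast_ofNat] at hk
      rcases Int.even_or_odd' k with ⟨j, hj | hj⟩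
      · left
        have : (((r - s) : ℝ) : Circ) = 0 := by
          rw [AddCircle.coe_eq_zero_iff]
          refine ⟨j, ?_⟩
          rw [hj] at hk
          push_cast at hk
          simp only [zsmul_eq_mul, mul_one]
          linarith
        rw [AddCircle.coe_sub, sub_eq_zero] at this
        exact this
      · right
        have : (((r - s - 1 / 2) : ℝ) : Circ) = 0 := by
          rw [AddCircle.coe_eq_zero_iff]
          refine ⟨j, ?_⟩
          rw [hj] at hk
          push_cast at hk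
          simp only [zsmul_eq_mul, mul_one]
          linarith
        rw [AddCircle.coe_sub, AddCircle.coe_sub, sub_eq_zero, sub_eq_iff_eq_add'] at this
        exact this

lemma half_ne_zero : ((1 / 2 : ℝ) : Circ) ≠ 0 := by
  intro h
  obtain ⟨k, hk⟩ := (AddCircle.coe_eq_zero_iff (1 : ℝ)).1 h
  simp only [zsmul_eq_mul, mul_one] at hk
  have h2 : (2 * k : ℝ) = 1 := by rw [hk]; norm_num
  have h3 : (2 * k : ℤ) = 1 := by exact_mod_cast h2
  omega

lemma two_smul_half : (2 : ℕ) • ((1 / 2 : ℝ) : Circ) = 0 := by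
  rw [← AddCircle.coe_nsmul, AddCircle.coe_eq_zero_iff]
  exact ⟨1, by norm_num⟩

/-- A continuous torsion-valued function on a preconnected set is constant. -/
lemma torsion_const {Z : Type*} [TopologicalSpace Z] {N : Set Z} (hN : IsPreconnected N)
    {w : Z → Circ} (hw : ContinuousOn w N) {m : ℕ} (hm : 0 < m) (h0 : ∀ z ∈ N, m • w z = 0)
    {p q : Z} (hp : p ∈ N) (hq : q ∈ N) : w p = w q := by
  have hfin : ({u : Circ | m • u = 0}).Finite := AddCircle.finite_torsion (1 : ℝ) hm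
  have htd : IsTotallyDisconnected {u : Circ | m • u = 0} := hfin.countable.isTotallyDisconnected
  have himg : w '' N ⊆ {u : Circ | m • u = 0} := by
    rintro _ ⟨z, hz, rfl⟩
    exact h0 z hz
  exact htd _ himg (hN.image w hw) ⟨p, hp, rfl⟩ ⟨q, hq, rfl⟩

/-- A lift of the circle to the line, continuous off one point. -/
lemma exists_lift (a : Circ) : ∃ ρ : Circ → ℝ, (∀ z, (ρ z : Circ) = z) ∧
    ∀ z, z ≠ a → ContinuousAt ρ z := by
  obtain ⟨r, -, rfl⟩ := AddCircle.eq_coe_Ico (p := (1 : ℝ)) a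
  refine ⟨fun z => (AddCircle.equivIco (1 : ℝ) r z : ℝ), fun z => AddCircle.coe_equivIco, ?_⟩
  intro z hz
  exact continuous_subtype_val.continuousAt.comp (AddCircle.continuousAt_equivIco (1 : ℝ) r hz)

/-- On a preconnected set whose `u`-image misses a point, any continuous `x` with
`m • x = k • u` is determined by `u`. -/
lemma proj_inj {Z : Type*} [TopologicalSpace Z] {N : Set Z} (hN : IsPreconnected N)
    {u x : Z → Circ} (hu : ContinuousOn u N) (hx : ContinuousOn x N) {a : Circ}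
    (ha : ∀ z ∈ N, u z ≠ a) {m k : ℕ} (hm : 0 < m) (hmk : ∀ z ∈ N, m • x z = k • u z)
    {p q : Z} (hp : p ∈ N) (hq : q ∈ N) (hpq : u p = u q) : x p = x q := by
  obtain ⟨ρ, hρ, hρc⟩ := exists_lift a
  have hcont : ContinuousOn (fun z => ρ (u z)) N := fun z hz =>
    (hρc (u z) (ha z hz)).comp_continuousWithinAt (hu z hz)
  have hw : ContinuousOn (fun z => x z - (((k : ℝ) / m * ρ (u z) : ℝ) : Circ)) N := by
    apply hx.sub
    exact (AddCircle.continuous_mk' (1 : ℝ)).comp_continuousOn (continuousOn_const.mul hcont)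
  have h0 : ∀ z ∈ N, m • (x z - (((k : ℝ) / m * ρ (u z) : ℝ) : Circ)) = 0 := by
    intro z hz
    rw [smul_sub, hmk z hz, ← AddCircle.coe_nsmul]
    have : (m • ((k : ℝ) / m * ρ (u z)) : ℝ) = k • ρ (u z) := by
      simp only [nsmul_eq_mul]
      field_simp
    rw [this, AddCircle.coe_nsmul, hρ, sub_self]
  have := torsion_const hN hw hm h0 hp hq
  simp only [hpq] at this
  exact sub_left_injective this

/-- The dyadic solenoid as an inverse limit of circles. -/
def Sol : Set (ℕ → Circ) := {x | ∀ n, (2 : ℕ) • x (n + 1) = x n}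

/-- One-parameter subgroup. -/
noncomputable def flow (t : ℝ) : ℕ → Circ := fun n => ((t / 2 ^ n : ℝ) : Circ)

lemma flow_mem (t : ℝ) : flow t ∈ Sol := by
  intro n
  simp only [flow]
  rw [← AddCircle.coe_nsmul]
  congr 1
  simp only [nsmul_eq_mul, Nat.cast_ofNat]
  field_simp
  ring

lemma continuous_flow : Continuous flow := by
  apply continuous_pi
  intro n
  exact (AddCircle.continuous_mk' (1 : ℝ)).comp (continuous_id.div_const _)

lemma isClosed_Sol : IsClosed Sol := by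
  have : Sol = ⋂ n, {x : ℕ → Circ | (2 : ℕ) • x (n + 1) = x n} := by
    ext x
    simp [Sol]
  rw [this]
  apply isClosed_iInter
  intro n
  exact isClosed_eq ((continuous_nsmul 2).comp (continuous_apply (n + 1))) (continuous_apply n)

lemma sol_pow {x : ℕ → Circ} (hx : x ∈ Sol) (n k : ℕ) : (2 ^ k : ℕ) • x (n + k) = x n := by
  induction k with
  | zero => simp
  | succ k ih =>
    rw [pow_succ, mul_smul, ← add_assoc, hx (n + k), ih]

lemma sol_eq_of_le {x y : ℕ → Circ} (hx : x ∈ Sol) (hy : y ∈ Sol) {n : ℕ} (h : x n = y n)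
    {i : ℕ} (hi : i ≤ n) : x i = y i := by
  obtain ⟨k, rfl⟩ := Nat.exists_eq_add_of_le hi
  rw [← sol_pow hx i k, ← sol_pow hy i k, h]

lemma tendsto_of_agree {x : ℕ → ℕ → Circ} {z : ℕ → Circ} (hx : ∀ n, x n ∈ Sol) (hz : z ∈ Sol)
    (h : ∀ n, x n n = z n) : Tendsto x atTop (𝓝 z) := by
  rw [tendsto_pi_nhds]
  intro i
  apply tendsto_const_nhds.congr'
  filter_upwards [eventually_ge_atTop i] with n hn
  exact (sol_eq_of_le (hx n) hz (h n) hn).symm

lemma exists_sol_apply (n : ℕ) (a : Circ) : ∃ t : ℝ, flow t n = a := by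
  obtain ⟨r, -, rfl⟩ := AddCircle.eq_coe_Ico (p := (1 : ℝ)) a
  refine ⟨2 ^ n * r, ?_⟩
  simp only [flow]
  congr 1
  field_simp

lemma sol_eq_closure : Sol = closure (range flow) := by
  apply Subset.antisymm
  · intro z hz
    choose t ht using fun n => exists_sol_apply n (z n)
    exact mem_closure_of_tendsto (tendsto_of_agree (fun n => flow_mem (t n)) hz ht)
      (Eventually.of_forall fun n => ⟨t n, rfl⟩)
  · exact closure_minimal (by rintro _ ⟨t, rfl⟩; exact flow_mem t) isClosed_Sol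

lemma isConnected_Sol : IsConnected Sol := by
  rw [sol_eq_closure]
  exact (isConnected_range continuous_flow).closure

lemma isCompact_Sol : IsCompact Sol := isClosed_Sol.isCompact

lemma exists_two_smul (a : Circ) : ∃ b : Circ, (2 : ℕ) • b = a := by
  obtain ⟨r, -, rfl⟩ := AddCircle.eq_coe_Ico (p := (1 : ℝ)) a
  refine ⟨((r / 2 : ℝ) : Circ), ?_⟩
  rw [← AddCircle.coe_nsmul]
  congr 1
  simp only [nsmul_eq_mul, Nat.cast_ofNat]
  ring

lemma miss_step {A : Set (ℕ → Circ)} (hAM : A ⊆ Sol) {n : ℕ} {a : Circ}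
    (h : ∀ x ∈ A, x n ≠ a) : ∃ b, ∀ x ∈ A, x (n + 1) ≠ b := by
  obtain ⟨b, rfl⟩ := exists_two_smul a
  refine ⟨b, fun x hx hxb => h x hx ?_⟩
  rw [← hxb, hAM hx n]

lemma miss_le {A : Set (ℕ → Circ)} (hAM : A ⊆ Sol) {n m : ℕ} (hnm : n ≤ m) {a : Circ}
    (h : ∀ x ∈ A, x n ≠ a) : ∃ b, ∀ x ∈ A, x m ≠ b := by
  obtain ⟨k, rfl⟩ := Nat.exists_eq_add_of_le hnm
  induction k with
  | zero => exact ⟨a, h⟩
  | succ k ih =>
    obtain ⟨b, hb⟩ := ih (Nat.le_add_right n k)
    exact miss_step hAM hb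

lemma exists_miss {A : Set (ℕ → Circ)} (hA : IsClosed A) (hAM : A ⊆ Sol) (hne : A ≠ Sol) :
    ∃ n, ∃ a, ∀ x ∈ A, x n ≠ a := by
  by_contra hcon
  push Not at hcon
  apply hne
  apply Subset.antisymm hAM
  intro z hz
  choose x hxA hx using fun n => hcon n (z n)
  have : z ∈ closure A := mem_closure_of_tendsto
    (tendsto_of_agree (fun n => hAM (hxA n)) hz hx) (Eventually.of_forall hxA)
  rwa [hA.closure_eq] at this

/-- The solenoid is indecomposable. -/
theorem sol_indecomposable {A B : Set (ℕ → Circ)} (hA : IsClosed A) (hB : IsClosed B)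
    (hBc : IsPreconnected B) (hAM : A ⊆ Sol) (hBM : B ⊆ Sol)
    (hAne : A ≠ Sol) (hBne : B ≠ Sol) : A ∪ B ≠ Sol := by
  intro hAB
  obtain ⟨n₁, a₁, h₁⟩ := exists_miss hA hAM hAne
  obtain ⟨n₂, a₂, h₂⟩ := exists_miss hB hBM hBne
  obtain ⟨a, ha⟩ := miss_le hAM (le_max_left n₁ n₂) h₁
  obtain ⟨b, hb⟩ := miss_le hBM (le_max_right n₁ n₂) h₂
  set n := max n₁ n₂
  obtain ⟨α, rfl⟩ := exists_two_smul a
  obtain ⟨t₁, ht₁⟩ := exists_sol_apply (n + 1) α
  obtain ⟨t₂, ht₂⟩ := exists_sol_apply (n + 1) (α + ((1 / 2 : ℝ) : Circ))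
  have e₁ : flow t₁ n = (2 : ℕ) • α := by rw [← flow_mem t₁ n, ht₁]
  have e₂ : flow t₂ n = (2 : ℕ) • α := by
    rw [← flow_mem t₂ n, ht₂, smul_add, two_smul_half, add_zero]
  have m₁ : flow t₁ ∈ B := by
    have : flow t₁ ∈ A ∪ B := by rw [hAB]; exact flow_mem t₁
    rcases this with h | h
    · exact absurd e₁ (ha _ h)
    · exact h
  have m₂ : flow t₂ ∈ B := by
    have : flow t₂ ∈ A ∪ B := by rw [hAB]; exact flow_mem t₂
    rcases this with h | h
    · exact absurd e₂ (ha _ h)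
    · exact h
  have := proj_inj hBc (u := fun x => x n) (x := fun x => x (n + 1))
    (continuous_apply n).continuousOn (continuous_apply (n + 1)).continuousOn (a := b) hb
    (m := 2) (k := 1) (by norm_num) (fun z hz => by rw [one_smul]; exact hBM hz n) m₁ m₂
    (e₁.trans e₂.symm)
  simp only [ht₁, ht₂] at this
  exact half_ne_zero (by simpa using this)

lemma nontrivial_Sol : Sol.Nontrivial := by
  refine ⟨flow 0, flow_mem 0, flow (1 / 2), flow_mem _, ?_⟩
  intro h
  have := congrFun h 0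
  simp only [flow, pow_zero, div_one] at this
  exact half_ne_zero (by rw [← this]; rfl)

/-- Explicit parametrisation of the solenoid by a time and a sequence of digits. -/
noncomputable def xc (ε : ℝ) (b : ℕ → ℝ) (t : ℝ) : ℕ → Circ :=
  fun n => (((ε * t + ∑ i ∈ Finset.range n, b i * 2 ^ i) / 2 ^ n : ℝ) : Circ)

lemma xc_mem {ε : ℝ} {b : ℕ → ℝ} (hb : ∀ i, b i = 0 ∨ b i = 1) (t : ℝ) : xc ε b t ∈ Sol := by
  intro n
  simp only [xc]
  rw [← AddCircle.coe_nsmul, ← sub_eq_zero, ← AddCircle.coe_sub, AddCircle.coe_eq_zero_iff]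
  have key : ∃ k : ℤ, b n = k := by
    rcases hb n with h | h
    · exact ⟨0, by simp [h]⟩
    · exact ⟨1, by simp [h]⟩
  obtain ⟨k, hk⟩ := key
  refine ⟨k, ?_⟩
  rw [Finset.sum_range_succ, hk]
  simp only [nsmul_eq_mul, Nat.cast_ofNat, zsmul_eq_mul, mul_one]
  field_simp
  ring

lemma exists_digits {x : ℕ → Circ} (hx : x ∈ Sol) {τ : ℝ} (hτ : (τ : Circ) = x 0) :
    ∃ b : ℕ → ℝ, (∀ i, b i = 0 ∨ b i = 1) ∧ ∀ n,
      x n = (((τ + ∑ i ∈ Finset.range n, b i * 2 ^ i) / 2 ^ n : ℝ) : Circ) := by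
  classical
  let B : ℕ → ℝ := fun n => Nat.rec 0 (fun n r =>
    r + (if x (n + 1) = (((τ + r) / 2 ^ (n + 1) : ℝ) : Circ) then 0 else 2 ^ n)) n
  have hB0 : B 0 = 0 := rfl
  have hBs : ∀ n, B (n + 1) = B n +
    (if x (n + 1) = (((τ + B n) / 2 ^ (n + 1) : ℝ) : Circ) then 0 else 2 ^ n) := fun n => rfl
  have hsum : ∀ n, ∑ i ∈ Finset.range n,
      (if x (i + 1) = (((τ + B i) / 2 ^ (i + 1) : ℝ) : Circ) then (0 : ℝ) else 1) * 2 ^ i = B n := by
    intro n
    induction n with
    | zero => simp [hB0]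
    | succ n ih =>
      rw [Finset.sum_range_succ, ih, hBs]
      split_ifs <;> ring
  refine ⟨fun n => if x (n + 1) = (((τ + B n) / 2 ^ (n + 1) : ℝ) : Circ) then 0 else 1, ?_, ?_⟩
  · intro i
    simp only
    split_ifs
    · exact Or.inl rfl
    · exact Or.inr rfl
  · intro n
    rw [hsum n]
    induction n with
    | zero => rw [hB0]; simp [hτ]
    | succ n ih =>
      rw [hBs]
      split_ifs with h
      · rw [add_zero]; exact h
      · have h2 : (2 : ℕ) • x (n + 1) = (2 : ℕ) • (((τ + B n) / 2 ^ (n + 1) : ℝ) : Circ) := by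
          rw [hx n, ih, ← AddCircle.coe_nsmul]
          congr 1
          simp only [nsmul_eq_mul, Nat.cast_ofNat]
          field_simp
          ring
        rcases two_smul_eq h2 with h3 | h3
        · exact absurd h3 h
        · rw [h3, ← AddCircle.coe_add]
          congr 1
          field_simp
          ring

lemma exists_xc {x : ℕ → Circ} (hx : x ∈ Sol) : ∃ ε : ℝ, (ε = 1 ∨ ε = -1) ∧ ∃ b : ℕ → ℝ,
    (∀ i, b i = 0 ∨ b i = 1) ∧ ∃ t ∈ Icc (0 : ℝ) (1 / 2), x = xc ε b t := by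
  obtain ⟨r, hr, hrx⟩ := AddCircle.eq_coe_Ico (p := (1 : ℝ)) (x 0)
  rcases le_or_gt r (1 / 2) with h | h
  · obtain ⟨b, hb, hxb⟩ := exists_digits hx hrx
    refine ⟨1, Or.inl rfl, b, hb, r, ⟨hr.1, h⟩, ?_⟩
    funext n
    rw [hxb n]
    simp [xc]
  · have h1 : ((r - 1 : ℝ) : Circ) = x 0 := by
      rw [← hrx, AddCircle.coe_sub]
      have : ((1 : ℝ) : Circ) = 0 := AddCircle.coe_period (1 : ℝ)
      rw [this, sub_zero]
    obtain ⟨b, hb, hxb⟩ := exists_digits hx h1
    refine ⟨-1, Or.inr rfl, b, hb, 1 - r, ⟨by linarith [hr.2], by linarith⟩, ?_⟩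
    funext n
    rw [hxb n]
    simp only [xc]
    congr 2
    ring

end Pool.Agent.DeltaConn
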