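import Mathlib
import Pool.Agent.DeltaConn.Solenoid

set_option autoImplicit false

open Set Topology Filter

namespace Pool.Agent.DeltaConn

/-- A continuous family of pairs (digits, time) indexed by the line, which over the Cantor set hits
exactly all pairs (0-1 sequence, time in `[0, 1/2]`). -/
theorem exists_param : ∃ b : ℝ → ℕ → ℝ, ∃ t : ℝ → ℝ, Continuous b ∧ Continuous t ∧
    (∀ r, t r ∈ Icc (0 : ℝ) (1 / 2)) ∧ (∀ r ∈ cantorSet, ∀ i, b r i = 0 ∨ b r i = 1) ∧
    ∀ c : ℕ → ℝ, (∀ i, c i = 0 ∨ c i = 1) → ∀ s ∈ Icc (0 : ℝ) (1 / 2),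
      ∃ r ∈ cantorSet, b r = c ∧ t r = s := by
  classical
  -- the space of pairs
  let Xs : Type := (ℕ → Bool) × (Icc (0 : ℝ) (1 / 2))
  have : Nonempty (Icc (0 : ℝ) (1 / 2)) := ⟨⟨0, by norm_num, by norm_num⟩⟩
  have : T2Space ((ℕ → Bool) × (Icc (0 : ℝ) (1 / 2))) := inferInstance
  have : SecondCountableTopology ((ℕ → Bool) × (Icc (0 : ℝ) (1 / 2))) := inferInstance
  have : CompactSpace ((ℕ → Bool) × (Icc (0 : ℝ) (1 / 2))) := inferInstance
  have : TopologicalSpace.MetrizableSpace ((ℕ → Bool) × (Icc (0 : ℝ) (1 / 2))) :=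
    TopologicalSpace.metrizableSpace_of_t3_secondCountable _
  let _ : MetricSpace ((ℕ → Bool) × (Icc (0 : ℝ) (1 / 2))) :=
    TopologicalSpace.metrizableSpaceMetric _
  obtain ⟨F, hFc, hFs⟩ := exists_nat_bool_continuous_surjective_of_compact
    ((ℕ → Bool) × (Icc (0 : ℝ) (1 / 2)))
  let κ : C(cantorSet, (ℕ → ℝ) × ℝ) :=
    ⟨fun r => (fun i => if (F (cantorSetHomeomorphNatToBool r)).1 i then (1 : ℝ) else 0,
      ((F (cantorSetHomeomorphNatToBool r)).2 : ℝ)), by
      have h0 : Continuous fun r : cantorSet => F (cantorSetHomeomorphNatToBool r) :=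
        hFc.comp cantorSetHomeomorphNatToBool.continuous
      apply Continuous.prodMk
      · apply continuous_pi
        intro i
        have h1 : Continuous fun r : cantorSet => (F (cantorSetHomeomorphNatToBool r)).1 i :=
          (continuous_apply i).comp (continuous_fst.comp h0)
        have h2 : Continuous (fun c : Bool => if c then (1 : ℝ) else 0) := continuous_of_discreteTopology
        exact h2.comp h1
      · exact continuous_subtype_val.comp (continuous_snd.comp h0)⟩
  obtain ⟨g, hg⟩ := ContinuousMap.exists_restrict_eq isClosed_cantorSet κ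
  have hgr : ∀ r (hr : r ∈ cantorSet), g r = κ ⟨r, hr⟩ := by
    intro r hr
    rw [← hg]
    rfl
  refine ⟨fun r => (g r).1, fun r => max 0 (min (1 / 2) (g r).2), ?_, ?_, ?_, ?_, ?_⟩
  · exact continuous_fst.comp g.continuous
  · exact continuous_const.max (continuous_const.min (continuous_snd.comp g.continuous))
  · intro r
    exact ⟨le_max_left _ _, max_le (by norm_num) (min_le_left _ _)⟩
  · intro r hr i
    simp only
    rw [hgr r hr]
    simp only [κ, ContinuousMap.coe_mk]
    split_ifs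
    · exact Or.inr rfl
    · exact Or.inl rfl
  · intro c hc s hs
    obtain ⟨x, hx⟩ := hFs (fun i => decide (c i = 1), ⟨s, hs⟩)
    obtain ⟨r, hr⟩ := cantorSetHomeomorphNatToBool.surjective x
    refine ⟨r, r.2, ?_, ?_⟩
    · funext i
      simp only
      rw [hgr r r.2]
      simp only [κ, ContinuousMap.coe_mk, Subtype.coe_eta, hr, hx]
      rcases hc i with h | h <;> simp [h]
    · simp only
      rw [hgr r r.2]
      simp only [κ, ContinuousMap.coe_mk, Subtype.coe_eta, hr, hx]
      rw [min_eq_right hs.2, max_eq_right hs.1]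

/-- The closed topologist's sine curve (with cosine). -/
def Tsc : Set (ℝ × ℝ) :=
  {p | p.1 ∈ Icc (-1 : ℝ) 1 ∧ p.2 ∈ Icc (0 : ℝ) 1 ∧ (0 < p.2 → p.1 = Real.cos (1 / p.2))}

lemma continuous_mul_cos : Continuous fun s : ℝ => s * Real.cos (1 / s) := by
  rw [continuous_iff_continuousAt]
  intro s
  by_cases hs : s = 0
  · subst hs
    rw [ContinuousAt]
    simp only [div_zero, Real.cos_zero, zero_mul]
    have h1 : Tendsto (fun s : ℝ => |s|) (𝓝 0) (𝓝 0) := by
      have := (continuous_abs (G := ℝ)).tendsto 0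
      simpa using this
    apply squeeze_zero_norm _ h1
    intro s
    rw [Real.norm_eq_abs, abs_mul]
    calc |s| * |Real.cos (1 / s)| ≤ |s| * 1 :=
          mul_le_mul_of_nonneg_left (Real.abs_cos_le_one _) (abs_nonneg s)
      _ = |s| := mul_one _
  · apply ContinuousAt.mul continuousAt_id
    apply Real.continuous_cos.continuousAt.comp
    exact continuousAt_const.div continuousAt_id hs

lemma isCompact_Tsc : IsCompact Tsc := by
  have h : Tsc = (Icc (-1 : ℝ) 1 ×ˢ Icc (0 : ℝ) 1) ∩
      {p : ℝ × ℝ | p.2 * p.1 = p.2 * Real.cos (1 / p.2)} := by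
    ext p
    simp only [Tsc, mem_ofPred_eq, mem_inter_iff, mem_prod]
    constructor
    · rintro ⟨h1, h2, h3⟩
      refine ⟨⟨h1, h2⟩, ?_⟩
      rcases eq_or_lt_of_le h2.1 with h | h
      · rw [← h]; simp
      · rw [← h3 h]
    · rintro ⟨⟨h1, h2⟩, h3⟩
      refine ⟨h1, h2, fun h => ?_⟩
      exact mul_left_cancel₀ h.ne' h3
  rw [h]
  apply (isCompact_Icc.prod isCompact_Icc).inter_right
  exact isClosed_eq (continuous_snd.mul continuous_fst) (continuous_mul_cos.comp continuous_snd)

lemma exists_seq (r : ℝ) (hr : r ∈ Icc (-1 : ℝ) 1) : ∃ s : ℕ → ℝ, Tendsto s atTop (𝓝 0) ∧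
    ∀ n, s n ∈ Ioc (0 : ℝ) 1 ∧ Real.cos (1 / s n) = r := by
  refine ⟨fun n => 1 / (Real.arccos r + ((n + 1 : ℕ) : ℝ) * (2 * Real.pi)), ?_, ?_⟩
  · have h1 : Tendsto (fun n : ℕ => Real.arccos r + ((n + 1 : ℕ) : ℝ) * (2 * Real.pi)) atTop atTop := by
      apply tendsto_atTop_add_const_left
      apply Tendsto.atTop_mul_const (by positivity)
      exact (tendsto_natCast_atTop_atTop).comp (tendsto_add_atTop_nat 1)
    simp only [one_div]
    exact tendsto_inv_atTop_zero.comp h1
  · intro n
    have ha := Real.arccos_nonneg r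
    have hpi := Real.pi_gt_three
    have hn : (1 : ℝ) ≤ ((n + 1 : ℕ) : ℝ) := by
      push_cast
      have : (0 : ℝ) ≤ n := Nat.cast_nonneg n
      linarith
    have hbig : 1 ≤ Real.arccos r + ((n + 1 : ℕ) : ℝ) * (2 * Real.pi) := by nlinarith
    refine ⟨⟨by positivity, ?_⟩, ?_⟩
    · rw [div_le_one (by linarith)]
      exact hbig
    · rw [one_div_one_div, Real.cos_add_nat_mul_two_pi]
      exact Real.cos_arccos hr.1 hr.2

lemma isConnected_Tsc : IsConnected Tsc := by
  have hg : IsConnected ((fun s : ℝ => (Real.cos (1 / s), s)) '' Ioc (0 : ℝ) 1) := by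
    apply (isConnected_Ioc zero_lt_one).image
    apply ContinuousOn.prodMk
    · apply Real.continuous_cos.comp_continuousOn
      exact continuousOn_const.div continuousOn_id (fun s hs => hs.1.ne')
    · exact continuousOn_id
  apply hg.subset_closure
  · rintro _ ⟨s, hs, rfl⟩
    exact ⟨⟨Real.neg_one_le_cos _, Real.cos_le_one _⟩, ⟨hs.1.le, hs.2⟩, fun _ => rfl⟩
  · rintro ⟨r, s⟩ ⟨h1, h2, h3⟩
    simp only at h1 h2 h3
    rcases eq_or_lt_of_le h2.1 with h | h
    · subst h
      obtain ⟨s, hs, hs'⟩ := exists_seq r h1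
      apply mem_closure_of_tendsto (f := fun n => (Real.cos (1 / s n), s n)) (b := atTop)
      · apply Tendsto.prodMk_nhds
        · simp only [(hs' _).2]
          exact tendsto_const_nhds
        · exact hs
      · exact Eventually.of_forall fun n => ⟨s n, (hs' n).1, rfl⟩
    · apply subset_closure
      refine ⟨s, ⟨h, h2.2⟩, ?_⟩
      simp only [Prod.mk.injEq, and_true]
      exact (h3 h).symm

end Pool.Agent.DeltaConn
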