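import Mathlib
import Pool.Agent.DeltaConn.Param

set_option autoImplicit false

open Set Topology Filter

namespace Pool.Agent.DeltaConn

open Pool.Agent.ContinuumBasics

/-- digit functions -/
noncomputable def bb : ℝ → ℕ → ℝ := exists_param.choose

/-- time function -/
noncomputable def tt : ℝ → ℝ := exists_param.choose_spec.choose

lemma continuous_bb : Continuous bb := exists_param.choose_spec.choose_spec.1

lemma continuous_tt : Continuous tt := exists_param.choose_spec.choose_spec.2.1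

lemma tt_mem (r : ℝ) : tt r ∈ Icc (0 : ℝ) (1 / 2) := exists_param.choose_spec.choose_spec.2.2.1 r

lemma bb_mem (r : ℝ) (hr : r ∈ cantorSet) (i : ℕ) : bb r i = 0 ∨ bb r i = 1 :=
  exists_param.choose_spec.choose_spec.2.2.2.1 r hr i

lemma exists_bb_tt (c : ℕ → ℝ) (hc : ∀ i, c i = 0 ∨ c i = 1) (s : ℝ) (hs : s ∈ Icc (0 : ℝ) (1 / 2)) :
    ∃ r ∈ cantorSet, bb r = c ∧ tt r = s :=
  exists_param.choose_spec.choose_spec.2.2.2.2 c hc s hs

/-- distance to the Cantor set -/
noncomputable def dd (r : ℝ) : ℝ := Metric.infDist r cantorSet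

lemma continuous_dd : Continuous dd := Metric.continuous_infDist_pt _

lemma dd_nonneg (r : ℝ) : 0 ≤ dd r := Metric.infDist_nonneg

lemma dd_eq_zero {r : ℝ} : dd r = 0 ↔ r ∈ cantorSet := by
  rw [isClosed_cantorSet.mem_iff_infDist_zero ⟨0, zero_mem_cantorSet⟩]
  rfl

lemma cantor_mem_Icc {r : ℝ} (hr : r ∈ cantorSet) : r ∈ Icc (-1 : ℝ) 1 := by
  have := cantorSet_subset_unitInterval hr
  exact ⟨by linarith [this.1], this.2⟩

/-- ambient space -/
abbrev W : Type := (ℕ → Circ) × ℝ × ℝ × ℝ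

/-- the parametrisation of the two halves of `Y` -/
noncomputable def Phi (ε : ℝ) (p : ℝ × ℝ) : W :=
  (xc ε (bb p.1) (tt p.1), ε * dd p.1, p.1 * dd p.1, ε * p.2)

lemma continuous_Phi (ε : ℝ) : Continuous (Phi ε) := by
  apply Continuous.prodMk
  · apply continuous_pi
    intro n
    apply (AddCircle.continuous_mk' (1 : ℝ)).comp
    apply Continuous.div_const
    apply Continuous.add
    · exact continuous_const.mul (continuous_tt.comp continuous_fst)
    · apply continuous_finsetSum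
      intro i _
      exact ((continuous_apply i).comp (continuous_bb.comp continuous_fst)).mul continuous_const
  · apply Continuous.prodMk
    · exact continuous_const.mul (continuous_dd.comp continuous_fst)
    · apply Continuous.prodMk
      · exact continuous_fst.mul (continuous_dd.comp continuous_fst)
      · exact continuous_const.mul continuous_snd

/-- The non-`δ`-connected continuum. -/
def Yset : Set W := Phi 1 '' Tsc ∪ Phi (-1) '' Tsc

/-- Its `δ`-connected double cover. -/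
def Xset : Set (W × Circ) := {q | q.1 ∈ Yset ∧ (2 : ℕ) • q.2 = q.1.1 0}

lemma isCompact_Yset : IsCompact Yset :=
  (isCompact_Tsc.image (continuous_Phi 1)).union (isCompact_Tsc.image (continuous_Phi (-1)))

lemma isCompact_Xset : IsCompact Xset := by
  have h : Xset = (Yset ×ˢ univ) ∩ {q : W × Circ | (2 : ℕ) • q.2 = q.1.1 0} := by
    ext q
    simp [Xset]
  rw [h]
  apply (isCompact_Yset.prod isCompact_univ).inter_right
  exact isClosed_eq ((continuous_nsmul 2).comp continuous_snd)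
    ((continuous_apply 0).comp (continuous_fst.comp continuous_fst))

instance : CompactSpace Xset := isCompact_iff_compactSpace.1 isCompact_Xset

instance : CompactSpace Yset := isCompact_iff_compactSpace.1 isCompact_Yset

instance : TopologicalSpace.MetrizableSpace W :=
  TopologicalSpace.metrizableSpace_of_t3_secondCountable _

instance : TopologicalSpace.MetrizableSpace (W × Circ) :=
  TopologicalSpace.metrizableSpace_of_t3_secondCountable _

/-- Both halves in a uniform form. -/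
lemma mem_Yset_iff {y : W} : y ∈ Yset ↔ ∃ ε : ℝ, (ε = 1 ∨ ε = -1) ∧ ∃ p ∈ Tsc, Phi ε p = y := by
  constructor
  · rintro (⟨p, hp, rfl⟩ | ⟨p, hp, rfl⟩)
    · exact ⟨1, Or.inl rfl, p, hp, rfl⟩
    · exact ⟨-1, Or.inr rfl, p, hp, rfl⟩
  · rintro ⟨ε, rfl | rfl, p, hp, rfl⟩
    · exact Or.inl ⟨p, hp, rfl⟩
    · exact Or.inr ⟨p, hp, rfl⟩

lemma sq_sign {ε : ℝ} (hε : ε = 1 ∨ ε = -1) : ε * ε = 1 := by
  rcases hε with rfl | rfl <;> norm_num

/-- points on the rays are determined by the last coordinate -/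
lemma ray_point {y : W} (hy : y ∈ Yset) {ε : ℝ} (hε : ε = 1 ∨ ε = -1) (h : 0 < ε * y.2.2.2) :
    y = Phi ε (Real.cos (1 / (ε * y.2.2.2)), ε * y.2.2.2) := by
  obtain ⟨ε', hε', p, hp, rfl⟩ := mem_Yset_iff.1 hy
  have hp2 : 0 ≤ p.2 := hp.2.1.1
  simp only [Phi] at h
  have hee : ε = ε' := by
    rcases hε with rfl | rfl <;> rcases hε' with rfl | rfl <;> first | rfl | (exfalso; linarith)
  subst hee
  have h1 : ε * (ε * p.2) = p.2 := by rw [← mul_assoc, sq_sign hε, one_mul]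
  rw [h1] at h
  have h2 : (Phi ε p).2.2.2 = ε * p.2 := rfl
  rw [h2, h1, ← hp.2.2 h]

/-- points on the free arcs are determined by a ratio -/
lemma arc_point {y : W} (hy : y ∈ Yset) (hs : y.2.2.2 = 0) {ε : ℝ} (hε : ε = 1 ∨ ε = -1)
    (h : 0 < ε * y.2.1) : y = Phi ε (y.2.2.1 / (ε * y.2.1), 0) := by
  obtain ⟨ε', hε', p, hp, rfl⟩ := mem_Yset_iff.1 hy
  have hp2 : 0 ≤ p.2 := hp.2.1.1
  have hd := dd_nonneg p.1
  have hs' : ε' * p.2 = 0 := hs
  have h' : 0 < ε * (ε' * dd p.1) := h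
  have hee : ε = ε' := by
    rcases hε with rfl | rfl <;> rcases hε' with rfl | rfl <;> first | rfl | (exfalso; linarith)
  subst hee
  have h1 : ε * (ε * dd p.1) = dd p.1 := by rw [← mul_assoc, sq_sign hε, one_mul]
  rw [h1] at h'
  have hp0 : p.2 = 0 := by
    rcases mul_eq_zero.1 hs' with h0 | h0
    · rcases hε with rfl | rfl <;> norm_num at h0
    · exact h0
  have h2 : (Phi ε p).2.2.1 / (ε * (Phi ε p).2.1) = p.1 := by
    change p.1 * dd p.1 / (ε * (ε * dd p.1)) = p.1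
    rw [h1, mul_div_assoc, div_self h'.ne', mul_one]
  rw [h2, ← hp0]

/-- points with two vanishing coordinates lie on the solenoid -/
lemma sol_point {y : W} (hy : y ∈ Yset) (hs : y.2.2.2 = 0) (ha : y.2.1 = 0) :
    y.1 ∈ Sol ∧ y.2.2.1 = 0 := by
  obtain ⟨ε', hε', p, hp, rfl⟩ := mem_Yset_iff.1 hy
  have ha' : ε' * dd p.1 = 0 := ha
  have hd0 : dd p.1 = 0 := by
    rcases mul_eq_zero.1 ha' with h0 | h0
    · rcases hε' with rfl | rfl <;> norm_num at h0
    · exact h0
  have hc : p.1 ∈ cantorSet := dd_eq_zero.1 hd0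
  refine ⟨xc_mem (fun i => bb_mem p.1 hc i) _, ?_⟩
  change p.1 * dd p.1 = 0
  rw [hd0, mul_zero]

/-- The solenoid sits in `Y`, in the limit parts. -/
lemma exists_sol_param {x : ℕ → Circ} (hx : x ∈ Sol) : ∃ ε : ℝ, (ε = 1 ∨ ε = -1) ∧
    ∃ r ∈ Icc (-1 : ℝ) 1, Phi ε (r, 0) = (x, 0, 0, 0) := by
  obtain ⟨ε, hε, b, hb, t, ht, rfl⟩ := exists_xc hx
  obtain ⟨r, hr, hbr, htr⟩ := exists_bb_tt b hb t ht
  refine ⟨ε, hε, r, cantor_mem_Icc hr, ?_⟩
  have hd : dd r = 0 := dd_eq_zero.2 hr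
  simp only [Phi, hbr, htr, hd, mul_zero]

lemma tsc_bar {r : ℝ} (hr : r ∈ Icc (-1 : ℝ) 1) : (r, (0 : ℝ)) ∈ Tsc :=
  ⟨hr, ⟨le_rfl, zero_le_one⟩, fun h => absurd h (lt_irrefl _)⟩

lemma tsc_ray {s : ℝ} (hs : s ∈ Ioc (0 : ℝ) 1) : (Real.cos (1 / s), s) ∈ Tsc :=
  ⟨⟨Real.neg_one_le_cos _, Real.cos_le_one _⟩, ⟨hs.1.le, hs.2⟩, fun _ => rfl⟩

lemma Phi_mem {ε : ℝ} (hε : ε = 1 ∨ ε = -1) {p : ℝ × ℝ} (hp : p ∈ Tsc) : Phi ε p ∈ Yset :=
  mem_Yset_iff.2 ⟨ε, hε, p, hp, rfl⟩

/-- end point of a ray -/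
noncomputable def endpt (ε : ℝ) (hε : ε = 1 ∨ ε = -1) : Yset :=
  ⟨Phi ε (Real.cos (1 / 1), 1), Phi_mem hε (tsc_ray ⟨zero_lt_one, le_rfl⟩)⟩

/-- Any continuum in `Y` joining the ends of the two rays contains all the limit parts. -/
lemma bar_mem {L : Set Yset} (hL : IsClosed L) (hLc : IsPreconnected L)
    (h1 : endpt 1 (Or.inl rfl) ∈ L) (h2 : endpt (-1) (Or.inr rfl) ∈ L)
    {ε : ℝ} (hε : ε = 1 ∨ ε = -1) {r : ℝ} (hr : r ∈ Icc (-1 : ℝ) 1) :
    (⟨Phi ε (r, 0), Phi_mem hε (tsc_bar hr)⟩ : Yset) ∈ L := by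
  have hs : Continuous fun y : Yset => y.1.2.2.2 :=
    continuous_snd.comp (continuous_snd.comp (continuous_snd.comp continuous_subtype_val))
  have hivt : Icc (-1 : ℝ) 1 ⊆ (fun y : Yset => y.1.2.2.2) '' L := by
    have := hLc.intermediate_value h2 h1 hs.continuousOn
    have e1 : (endpt 1 (Or.inl rfl)).1.2.2.2 = 1 := by simp [endpt, Phi]
    have e2 : (endpt (-1) (Or.inr rfl)).1.2.2.2 = -1 := by simp [endpt, Phi]
    simp only [e1, e2] at this
    exact this
  obtain ⟨s, hs0, hs1⟩ := exists_seq r hr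
  have hin : ∀ n, (⟨Phi ε (Real.cos (1 / s n), s n), Phi_mem hε (tsc_ray (hs1 n).1)⟩ : Yset) ∈ L := by
    intro n
    have hmem : ε * s n ∈ Icc (-1 : ℝ) 1 := by
      have := (hs1 n).1
      rcases hε with rfl | rfl
      · exact ⟨by linarith [this.1], by linarith [this.2]⟩
      · exact ⟨by linarith [this.2], by linarith [this.1]⟩
    obtain ⟨y, hyL, hy⟩ := hivt hmem
    simp only at hy
    have hpos : 0 < ε * y.1.2.2.2 := by
      rw [hy, ← mul_assoc, sq_sign hε, one_mul]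
      exact (hs1 n).1.1
    have hyeq := ray_point y.2 hε hpos
    have he : ε * y.1.2.2.2 = s n := by rw [hy, ← mul_assoc, sq_sign hε, one_mul]
    rw [he] at hyeq
    have : y = ⟨Phi ε (Real.cos (1 / s n), s n), Phi_mem hε (tsc_ray (hs1 n).1)⟩ := Subtype.ext hyeq
    rw [← this]
    exact hyL
  have hlim : Tendsto (fun n => (⟨Phi ε (Real.cos (1 / s n), s n),
      Phi_mem hε (tsc_ray (hs1 n).1)⟩ : Yset)) atTop (𝓝 ⟨Phi ε (r, 0), Phi_mem hε (tsc_bar hr)⟩) := by
    rw [tendsto_subtype_rng]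
    simp only [(hs1 _).2]
    exact ((continuous_Phi ε).tendsto (r, 0)).comp (tendsto_const_nhds.prodMk_nhds hs0)
  exact hL.mem_of_tendsto hlim (Eventually.of_forall hin)

/-- The solenoid inside `Y`. -/
def MY : Set Yset := {y | y.1.2.2.2 = 0 ∧ y.1.2.1 = 0}

/-- embedding of the solenoid -/
noncomputable def jj (x : Sol) : Yset := ⟨(x.1, 0, 0, 0), by
  obtain ⟨ε, hε, r, hr, h⟩ := exists_sol_param x.2
  rw [← h]
  exact Phi_mem hε (tsc_bar hr)⟩

lemma continuous_jj : Continuous jj :=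
  Continuous.subtype_mk (continuous_subtype_val.prodMk continuous_const) _

lemma range_jj : range jj = MY := by
  ext y
  constructor
  · rintro ⟨x, rfl⟩
    exact ⟨rfl, rfl⟩
  · rintro ⟨h1, h2⟩
    obtain ⟨h3, h4⟩ := sol_point y.2 h1 h2
    refine ⟨⟨y.1.1, h3⟩, ?_⟩
    apply Subtype.ext
    change (y.1.1, (0 : ℝ), (0 : ℝ), (0 : ℝ)) = y.1
    ext1
    · rfl
    · ext1
      · exact h2.symm
      · ext1
        · exact h4.symm
        · exact h1.symm

lemma MY_subset {L : Set Yset} (hL : IsClosed L) (hLc : IsPreconnected L)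
    (h1 : endpt 1 (Or.inl rfl) ∈ L) (h2 : endpt (-1) (Or.inr rfl) ∈ L) : MY ⊆ L := by
  rw [← range_jj]
  rintro _ ⟨x, rfl⟩
  obtain ⟨ε, hε, r, hr, h⟩ := exists_sol_param x.2
  have := bar_mem hL hLc h1 h2 hε hr
  have e : (⟨Phi ε (r, 0), Phi_mem hε (tsc_bar hr)⟩ : Yset) = jj x := Subtype.ext h
  rw [e] at this
  exact this

lemma isConnected_MY : IsConnected MY := by
  rw [← range_jj]
  have : ConnectedSpace Sol := isConnected_iff_connectedSpace.1 isConnected_Sol
  exact isConnected_range continuous_jj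

lemma isCompact_MY : IsCompact MY := by
  rw [← range_jj]
  have : CompactSpace Sol := isCompact_iff_compactSpace.1 isCompact_Sol
  exact isCompact_range continuous_jj

lemma nontrivial_MY : MY.Nontrivial := by
  obtain ⟨x, hx, y, hy, hxy⟩ := nontrivial_Sol
  rw [← range_jj]
  refine ⟨jj ⟨x, hx⟩, ⟨_, rfl⟩, jj ⟨y, hy⟩, ⟨_, rfl⟩, fun h => hxy ?_⟩
  have := congrArg (fun z : Yset => z.1.1) h
  exact this

/-- The copy of the solenoid in `Y` is indecomposable. -/
lemma not_decomp_MY : ¬ Decomp MY := by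
  rintro ⟨A, B, hA, hB, hAne, hBne, hAc, hAcon, hBc, hBcon, hAB⟩
  -- push to the solenoid via the first coordinate
  have hc : Continuous fun y : Yset => y.1.1 := continuous_fst.comp continuous_subtype_val
  have himg : ∀ D : Set Yset, D ⊆ MY → (fun y : Yset => y.1.1) '' D ⊆ Sol := by
    rintro D hD _ ⟨y, hy, rfl⟩
    exact (sol_point y.2 (hD hy).1 (hD hy).2).1
  have hinj : ∀ y ∈ MY, ∀ z ∈ MY, y.1.1 = z.1.1 → y = z := by
    intro y hy z hz h
    obtain ⟨y', rfl⟩ : y ∈ range jj := by rw [range_jj]; exact hy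
    obtain ⟨z', rfl⟩ : z ∈ range jj := by rw [range_jj]; exact hz
    have : y' = z' := Subtype.ext h
    rw [this]
  have hne : ∀ D : Set Yset, D ⊆ MY → D ≠ MY → (fun y : Yset => y.1.1) '' D ≠ Sol := by
    intro D hD hDne h
    apply hDne
    apply Subset.antisymm hD
    intro y hy
    have hy1 : y.1.1 ∈ (fun y : Yset => y.1.1) '' D := by
      rw [h]
      exact (sol_point y.2 hy.1 hy.2).1
    obtain ⟨z, hz, hzy⟩ := hy1
    rw [← hinj z (hD hz) y hy hzy]
    exact hz
  apply sol_indecomposable (A := (fun y : Yset => y.1.1) '' A) (B := (fun y : Yset => y.1.1) '' B)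
    (hAc.image hc).isClosed (hBc.image hc).isClosed (hBcon.image _ hc.continuousOn).isPreconnected
    (himg A hA) (himg B hB) (hne A hA hAne) (hne B hB hBne)
  apply Subset.antisymm
  · exact union_subset (himg A hA) (himg B hB)
  · intro x hx
    have : jj ⟨x, hx⟩ ∈ A ∪ B := by
      rw [hAB, ← range_jj]
      exact ⟨_, rfl⟩
    rcases this with h | h
    · exact Or.inl ⟨_, h, rfl⟩
    · exact Or.inr ⟨_, h, rfl⟩

end Pool.Agent.DeltaConn
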