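import Mathlib
import Pool.Agent.DeltaConn.Spaces

set_option autoImplicit false

open Set Topology Filter

namespace Pool.Agent.DeltaConn

open Pool.Agent.ContinuumBasics

lemma isLocalHomeomorph_double : IsLocalHomeomorph (fun u : Circ => (2 : ℕ) • u) :=
  (AddCircle.isAddQuotientCoveringMap_nsmul_of_ne_zero (1 : ℝ) 2).isCoveringMap.isLocalHomeomorph

lemma double_inj (u : Circ) : ∃ U : Set Circ, IsOpen U ∧ u ∈ U ∧
    ∀ v ∈ U, ∀ w ∈ U, (2 : ℕ) • v = (2 : ℕ) • w → v = w := by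
  obtain ⟨U, hU, huU, hinj⟩ := isLocalHomeomorph_double.isLocallyInjective u
  exact ⟨U, hU, huU, fun v hv w hw h => hinj hv hw h⟩

/-- The covering map. -/
def ff : Xset → Yset := fun q => ⟨q.1.1, q.2.1⟩

lemma continuous_ff : Continuous ff :=
  Continuous.subtype_mk (continuous_fst.comp continuous_subtype_val) _

lemma continuous_uX : Continuous fun q : Xset => q.1.2 := continuous_snd.comp continuous_subtype_val

lemma continuous_sX : Continuous fun q : Xset => q.1.1.2.2.2 :=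
  continuous_snd.comp (continuous_snd.comp (continuous_snd.comp
    (continuous_fst.comp continuous_subtype_val)))

lemma continuous_aX : Continuous fun q : Xset => q.1.1.2.1 :=
  continuous_fst.comp (continuous_snd.comp (continuous_fst.comp continuous_subtype_val))

lemma continuous_bX : Continuous fun q : Xset => q.1.1.2.2.1 :=
  continuous_fst.comp (continuous_snd.comp (continuous_snd.comp
    (continuous_fst.comp continuous_subtype_val)))

lemma continuous_xX (n : ℕ) : Continuous fun q : Xset => q.1.1.1 n :=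
  (continuous_apply n).comp (continuous_fst.comp (continuous_fst.comp continuous_subtype_val))

lemma surjective_ff : Function.Surjective ff := by
  intro y
  obtain ⟨u, hu⟩ := exists_two_smul (y.1.1 0)
  exact ⟨⟨(y.1, u), y.2, hu⟩, rfl⟩

lemma isOpenMap_ff : IsOpenMap ff := by
  rw [isOpenMap_iff_nhds_le]
  intro q S hS
  rw [mem_map] at hS
  rw [nhds_subtype_eq_comap, mem_comap] at hS
  obtain ⟨T, hT, hTS⟩ := hS
  rw [nhds_prod_eq, mem_prod_iff] at hT
  obtain ⟨A, hA, B, hB, hAB⟩ := hT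
  have hdB : (fun u : Circ => (2 : ℕ) • u) '' B ∈ 𝓝 ((2 : ℕ) • q.1.2) :=
    isLocalHomeomorph_double.isOpenMap.image_mem_nhds hB
  rw [q.2.2] at hdB
  have hcont : Continuous fun y : Yset => y.1.1 0 :=
    (continuous_apply 0).comp (continuous_fst.comp continuous_subtype_val)
  have h1 : (fun y : Yset => y.1.1 0) ⁻¹' ((fun u : Circ => (2 : ℕ) • u) '' B) ∈ 𝓝 (ff q) :=
    hcont.continuousAt.preimage_mem_nhds hdB
  have h2 : (Subtype.val : Yset → W) ⁻¹' A ∈ 𝓝 (ff q) :=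
    continuous_subtype_val.continuousAt.preimage_mem_nhds hA
  filter_upwards [h1, h2] with y hy1 hy2
  obtain ⟨u, hu, huy⟩ := hy1
  have hq' : ((y.1, u) : W × Circ) ∈ Xset := ⟨y.2, huy⟩
  have : (⟨(y.1, u), hq'⟩ : Xset) ∈ ff ⁻¹' S := hTS (hAB ⟨hy2, hu⟩)
  exact this

theorem isLocalHomeomorph_ff : IsLocalHomeomorph ff := by
  rw [isLocalHomeomorph_iff_isOpenEmbedding_restrict]
  intro q
  obtain ⟨U, hU, huU, hinj⟩ := double_inj q.1.2
  have hV : IsOpen ((fun q : Xset => q.1.2) ⁻¹' U) := hU.preimage continuous_uX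
  refine ⟨_, hV.mem_nhds huU, ?_⟩
  apply IsOpenEmbedding.of_continuous_injective_isOpenMap
  · exact continuous_ff.comp continuous_subtype_val
  · rintro ⟨q1, h1⟩ ⟨q2, h2⟩ h
    have h' : ff q1 = ff q2 := h
    have hy : q1.1.1 = q2.1.1 := congrArg Subtype.val h'
    have hu : q1.1.2 = q2.1.2 := hinj _ h1 _ h2 (by rw [q1.2.2, q2.2.2, hy])
    apply Subtype.ext
    apply Subtype.ext
    exact Prod.ext hy hu
  · exact isOpenMap_ff.domRestrict hV

/-- A nondegenerate continuum in `X` whose circle coordinate misses a point is decomposable. -/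
theorem decomp_X {N : Set Xset} (hN : IsCompact N) (hNc : IsConnected N) (hnt : N.Nontrivial)
    {a₀ : Circ} (ha₀ : ∀ q ∈ N, q.1.2 ≠ a₀) : Decomp N := by
  by_cases h1 : ∃ q ∈ N, q.1.1.2.2.2 ≠ 0
  · -- a point on a ray
    obtain ⟨q, hqN, hq⟩ := h1
    obtain ⟨ε, hε, hpos⟩ : ∃ ε : ℝ, (ε = 1 ∨ ε = -1) ∧ 0 < ε * q.1.1.2.2.2 := by
      rcases lt_or_gt_of_ne hq with h | h
      · exact ⟨-1, Or.inr rfl, by linarith⟩
      · exact ⟨1, Or.inl rfl, by linarith⟩
    obtain ⟨U, hU, huU, hinj⟩ := double_inj q.1.2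
    have hG : IsOpen ({q' : Xset | 0 < ε * q'.1.1.2.2.2} ∩ (fun q' : Xset => q'.1.2) ⁻¹' U) :=
      (isOpen_lt continuous_const (continuous_const.mul continuous_sX)).inter
        (hU.preimage continuous_uX)
    refine decomp_of_injOn hN hNc hnt hG hqN ⟨hpos, huU⟩ (τ := fun q' => q'.1.1.2.2.2)
      continuous_sX.continuousOn ?_
    rintro q1 ⟨-, h1, h1U⟩ q2 ⟨-, h2, h2U⟩ h
    have h' : q1.1.1.2.2.2 = q2.1.1.2.2.2 := h
    have hy : q1.1.1 = q2.1.1 := by
      rw [ray_point q1.2.1 hε h1, ray_point q2.2.1 hε h2, h']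
    have hu : q1.1.2 = q2.1.2 := hinj _ h1U _ h2U (by rw [q1.2.2, q2.2.2, hy])
    exact Subtype.ext (Prod.ext hy hu)
  · push Not at h1
    by_cases h2 : ∃ q ∈ N, q.1.1.2.1 ≠ 0
    · -- a point on a free arc
      obtain ⟨q, hqN, hq⟩ := h2
      obtain ⟨ε, hε, hpos⟩ : ∃ ε : ℝ, (ε = 1 ∨ ε = -1) ∧ 0 < ε * q.1.1.2.1 := by
        rcases lt_or_gt_of_ne hq with h | h
        · exact ⟨-1, Or.inr rfl, by linarith⟩
        · exact ⟨1, Or.inl rfl, by linarith⟩
      obtain ⟨U, hU, huU, hinj⟩ := double_inj q.1.2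
      have hG : IsOpen ({q' : Xset | 0 < ε * q'.1.1.2.1} ∩ (fun q' : Xset => q'.1.2) ⁻¹' U) :=
        (isOpen_lt continuous_const (continuous_const.mul continuous_aX)).inter
          (hU.preimage continuous_uX)
      refine decomp_of_injOn hN hNc hnt hG hqN ⟨hpos, huU⟩
        (τ := fun q' => q'.1.1.2.2.1 / (ε * q'.1.1.2.1)) ?_ ?_
      · apply ContinuousOn.div continuous_bX.continuousOn
          (continuous_const.mul continuous_aX).continuousOn
        rintro q' ⟨-, hq', -⟩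
        exact ne_of_gt hq'
      · rintro q1 ⟨h1N, h1, h1U⟩ q2 ⟨h2N, h2, h2U⟩ h
        have h' : q1.1.1.2.2.1 / (ε * q1.1.1.2.1) = q2.1.1.2.2.1 / (ε * q2.1.1.2.1) := h
        have hy : q1.1.1 = q2.1.1 := by
          rw [arc_point q1.2.1 (by_contra fun hh => hh (‹∀ q ∈ N, q.1.1.2.2.2 = 0› q1 h1N)) hε h1,
            arc_point q2.2.1 (by_contra fun hh => hh (‹∀ q ∈ N, q.1.1.2.2.2 = 0› q2 h2N)) hε h2, h']
        have hu : q1.1.2 = q2.1.2 := hinj _ h1U _ h2U (by rw [q1.2.2, q2.2.2, hy])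
        exact Subtype.ext (Prod.ext hy hu)
    · -- everything on the solenoid part
      push Not at h2
      obtain ⟨ρ, hρ, hρc⟩ := exists_lift a₀
      obtain ⟨q, hqN, -⟩ := hnt.exists_ne (hNc.nonempty.some)
      refine decomp_of_injOn hN hNc hnt isOpen_univ hqN (mem_univ q) (τ := fun q' => ρ q'.1.2) ?_ ?_
      · rintro q' ⟨hq', -⟩
        exact ContinuousAt.comp_continuousWithinAt (f := fun q : Xset => q.1.2) (g := ρ)
          (hρc _ (ha₀ q' hq')) continuous_uX.continuousWithinAt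
      · rintro q1 ⟨h1N, -⟩ q2 ⟨h2N, -⟩ h
        have h' : ρ q1.1.2 = ρ q2.1.2 := h
        have hu : q1.1.2 = q2.1.2 := by rw [← hρ q1.1.2, ← hρ q2.1.2, h']
        obtain ⟨m1, b1⟩ := sol_point q1.2.1 (h1 q1 h1N) (h2 q1 h1N)
        obtain ⟨m2, b2⟩ := sol_point q2.2.1 (h1 q2 h2N) (h2 q2 h2N)
        have hx : q1.1.1.1 = q2.1.1.1 := by
          funext n
          have := proj_inj hNc.isPreconnected (u := fun q : Xset => q.1.2)
            (x := fun q : Xset => q.1.1.1 n) continuous_uX.continuousOn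
            (continuous_xX n).continuousOn ha₀ (m := 2 ^ n) (k := 2) (by positivity)
            (fun z hz => by
              have hz' := (sol_point z.2.1 (h1 z hz) (h2 z hz)).1
              have := sol_pow hz' 0 n
              rw [zero_add] at this
              simp only [this]
              exact z.2.2.symm) h1N h2N hu
          exact this
        have hy : q1.1.1 = q2.1.1 := by
          ext1
          · exact hx
          · ext1
            · rw [h2 q1 h1N, h2 q2 h2N]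
            · ext1
              · rw [b1, b2]
              · rw [h1 q1 h1N, h1 q2 h2N]
        exact Subtype.ext (Prod.ext hy hu)

/-- The pieces of `X`. -/
noncomputable def pmap (ε o : ℝ) (p : ℝ × ℝ) : W × Circ :=
  (Phi ε p, ((o + ε * tt p.1 / 2 : ℝ) : Circ))

lemma continuous_pmap (ε o : ℝ) : Continuous (pmap ε o) := by
  apply (continuous_Phi ε).prodMk
  apply (AddCircle.continuous_mk' (1 : ℝ)).comp
  exact continuous_const.add ((continuous_const.mul (continuous_tt.comp continuous_fst)).div_const _)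

lemma pmap_mem {ε o : ℝ} (hε : ε = 1 ∨ ε = -1) (ho : ∃ k : ℤ, 2 * o = k) {p : ℝ × ℝ}
    (hp : p ∈ Tsc) : pmap ε o p ∈ Xset := by
  refine ⟨Phi_mem hε hp, ?_⟩
  simp only [pmap, Phi, xc, pow_zero, div_one, Finset.range_zero, Finset.sum_empty, add_zero]
  rw [← AddCircle.coe_nsmul, ← sub_eq_zero, ← AddCircle.coe_sub, AddCircle.coe_eq_zero_iff]
  obtain ⟨k, hk⟩ := ho
  refine ⟨k, ?_⟩
  simp only [zsmul_eq_mul, mul_one, nsmul_eq_mul, Nat.cast_ofNat]
  rw [← hk]
  ring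

/-- A piece of `X`. -/
def piece (ε o : ℝ) : Set Xset := {q | ∃ p ∈ Tsc, q.1 = pmap ε o p}

lemma piece_eq {ε o : ℝ} (hε : ε = 1 ∨ ε = -1) (ho : ∃ k : ℤ, 2 * o = k) :
    piece ε o = range fun p : Tsc => (⟨pmap ε o p.1, pmap_mem hε ho p.2⟩ : Xset) := by
  ext q
  constructor
  · rintro ⟨p, hp, h⟩
    exact ⟨⟨p, hp⟩, Subtype.ext h.symm⟩
  · rintro ⟨p, rfl⟩
    exact ⟨p.1, p.2, rfl⟩

lemma isConnected_piece {ε o : ℝ} (hε : ε = 1 ∨ ε = -1) (ho : ∃ k : ℤ, 2 * o = k) :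
    IsConnected (piece ε o) := by
  rw [piece_eq hε ho]
  have : ConnectedSpace Tsc := isConnected_iff_connectedSpace.1 isConnected_Tsc
  exact isConnected_range
    (Continuous.subtype_mk ((continuous_pmap ε o).comp continuous_subtype_val) _)

lemma isCompact_piece {ε o : ℝ} (hε : ε = 1 ∨ ε = -1) (ho : ∃ k : ℤ, 2 * o = k) :
    IsCompact (piece ε o) := by
  rw [piece_eq hε ho]
  have : CompactSpace Tsc := isCompact_iff_compactSpace.1 isCompact_Tsc
  exact isCompact_range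
    (Continuous.subtype_mk ((continuous_pmap ε o).comp continuous_subtype_val) _)

/-- signs of the four pieces -/
noncomputable def sg (j : Fin 4) : ℝ := ![1, -1, 1, -1] j

/-- offsets of the four pieces -/
noncomputable def off (j : Fin 4) : ℝ := ![0, 1 / 2, 1 / 2, 1] j

lemma sg_sign (j : Fin 4) : sg j = 1 ∨ sg j = -1 := by
  fin_cases j <;> simp [sg]

lemma off_int (j : Fin 4) : ∃ k : ℤ, 2 * off j = k := by
  fin_cases j
  · exact ⟨0, by simp [off]⟩
  · exact ⟨1, by simp [off]⟩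
  · exact ⟨1, by simp [off]⟩
  · exact ⟨2, by simp [off]⟩

/-- The four pieces in cyclic order. -/
def Wj (j : Fin 4) : Set Xset := piece (sg j) (off j)

lemma isConnected_Wj (j : Fin 4) : IsConnected (Wj j) := isConnected_piece (sg_sign j) (off_int j)

lemma isCompact_Wj (j : Fin 4) : IsCompact (Wj j) := isCompact_piece (sg_sign j) (off_int j)

/-- The circle coordinate of the `j`-th piece lies in the `j`-th quarter. -/
lemma Wj_coord {j : Fin 4} {q : Xset} (hq : q ∈ Wj j) :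
    ∃ v : ℝ, (j : ℕ) / 4 ≤ v ∧ v ≤ ((j : ℕ) + 1) / 4 ∧ q.1.2 = (v : Circ) := by
  obtain ⟨p, hp, h⟩ := hq
  have ht := tt_mem p.1
  refine ⟨off j + sg j * tt p.1 / 2, ?_, ?_, by rw [h]; rfl⟩
  · fin_cases j <;> simp [off, sg] <;> linarith [ht.1, ht.2]
  · fin_cases j <;> simp [off, sg] <;> linarith [ht.1, ht.2]

/-- missing point of the `j`-th piece complement -/
noncomputable def mp (j : Fin 4) : Circ := (((j : ℕ) / 4 + 1 / 8 : ℝ) : Circ)

lemma Wj_miss {i j : Fin 4} (hij : i ≠ j) {q : Xset} (hq : q ∈ Wj i) : q.1.2 ≠ mp j := by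
  obtain ⟨v, hv1, hv2, hqv⟩ := Wj_coord hq
  rw [hqv]
  intro h
  unfold mp at h
  rw [← sub_eq_zero, ← AddCircle.coe_sub, AddCircle.coe_eq_zero_iff] at h
  obtain ⟨k, hk⟩ := h
  simp only [zsmul_eq_mul, mul_one] at hk
  have hi : ((i : ℕ) : ℝ) ≤ 3 := by
    have : (i : ℕ) ≤ 3 := by omega
    exact_mod_cast this
  have hj : ((j : ℕ) : ℝ) ≤ 3 := by
    have : (j : ℕ) ≤ 3 := by omega
    exact_mod_cast this
  have hi0 : (0 : ℝ) ≤ ((i : ℕ) : ℝ) := Nat.cast_nonneg _
  have hj0 : (0 : ℝ) ≤ ((j : ℕ) : ℝ) := Nat.cast_nonneg _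
  have hk1 : (k : ℝ) < 1 := by linarith
  have hk2 : (-1 : ℝ) < k := by linarith
  have hk0 : k = 0 := by
    have h1 : k < 1 := by exact_mod_cast hk1
    have h2 : -1 < k := by exact_mod_cast hk2
    omega
  rw [hk0] at hk
  simp only [Int.cast_zero] at hk
  have hv : v = ((j : ℕ) : ℝ) / 4 + 1 / 8 := by linarith
  have h1 : ((i : ℕ) : ℝ) < ((j : ℕ) : ℝ) + 1 := by linarith
  have h2 : ((j : ℕ) : ℝ) < ((i : ℕ) : ℝ) + 1 := by linarith
  have h1' : (i : ℕ) < (j : ℕ) + 1 := by exact_mod_cast h1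
  have h2' : (j : ℕ) < (i : ℕ) + 1 := by exact_mod_cast h2
  exact hij (Fin.ext (by omega))

lemma exists_Wj (q : Xset) : ∃ j, q ∈ Wj j := by
  obtain ⟨ε, hε, p, hp, h⟩ := mem_Yset_iff.1 q.2.1
  have h0 : q.1.1.1 0 = ((ε * tt p.1 : ℝ) : Circ) := by
    rw [← h]
    simp [Phi, xc]
  have h2 : (2 : ℕ) • q.1.2 = (2 : ℕ) • ((ε * tt p.1 / 2 : ℝ) : Circ) := by
    rw [q.2.2, h0, ← AddCircle.coe_nsmul]
    congr 1
    simp only [nsmul_eq_mul, Nat.cast_ofNat]
    ring
  have hone : ((1 : ℝ) : Circ) = 0 := AddCircle.coe_period (1 : ℝ)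
  have hu := two_smul_eq h2
  rcases hε with rfl | rfl
  · rcases hu with hu | hu
    · refine ⟨0, p, hp, Prod.ext h.symm ?_⟩
      rw [hu]
      simp [pmap, sg, off]
    · refine ⟨2, p, hp, Prod.ext h.symm ?_⟩
      rw [hu, ← AddCircle.coe_add]
      simp only [pmap, sg, off]
      congr 1
      simp
      ring
  · rcases hu with hu | hu
    · refine ⟨3, p, hp, Prod.ext h.symm ?_⟩
      rw [hu]
      simp only [pmap, sg, off]
      rw [AddCircle.coe_add]
      simp [hone]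
    · refine ⟨1, p, hp, Prod.ext h.symm ?_⟩
      rw [hu, ← AddCircle.coe_add]
      simp only [pmap, sg, off]
      congr 1
      simp
      ring

lemma glue_zero : ∃ r ∈ Icc (-1 : ℝ) 1, Phi 1 (r, 0) = Phi (-1) (r, 0) ∧ tt r = 0 := by
  obtain ⟨r, hr, -, ht⟩ := exists_bb_tt (fun _ => 0) (fun _ => Or.inl rfl) 0 ⟨le_rfl, by norm_num⟩
  refine ⟨r, cantor_mem_Icc hr, ?_, ht⟩
  have hd : dd r = 0 := dd_eq_zero.2 hr
  have hx : xc 1 (bb r) 0 = xc (-1) (bb r) 0 := by
    funext n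
    simp [xc]
  simp only [Phi, ht, hd, mul_zero, hx]

lemma glue_half : ∃ r ∈ Icc (-1 : ℝ) 1, ∃ r' ∈ Icc (-1 : ℝ) 1, Phi 1 (r, 0) = Phi (-1) (r', 0) ∧
    tt r = 1 / 2 ∧ tt r' = 1 / 2 := by
  obtain ⟨r, hr, hb, ht⟩ := exists_bb_tt (fun _ => 0) (fun _ => Or.inl rfl) (1 / 2)
    ⟨by norm_num, le_rfl⟩
  obtain ⟨r', hr', hb', ht'⟩ := exists_bb_tt (fun i => if i = 0 then 1 else 0)
    (fun i => by by_cases h : i = 0 <;> simp [h]) (1 / 2) ⟨by norm_num, le_rfl⟩
  refine ⟨r, cantor_mem_Icc hr, r', cantor_mem_Icc hr', ?_, ht, ht'⟩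
  have hd : dd r = 0 := dd_eq_zero.2 hr
  have hd' : dd r' = 0 := dd_eq_zero.2 hr'
  have hx : xc 1 (bb r) (tt r) = xc (-1) (bb r') (tt r') := by
    funext n
    simp only [xc, hb, ht, hb', ht']
    rcases Nat.eq_zero_or_pos n with rfl | hn
    · simp only [Finset.range_zero, Finset.sum_empty, add_zero, pow_zero, div_one]
      rw [← sub_eq_zero, ← AddCircle.coe_sub, AddCircle.coe_eq_zero_iff]
      exact ⟨1, by norm_num⟩
    · congr 2
      have h0 : (0 : ℕ) ∈ Finset.range n := Finset.mem_range.2 hn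
      have : ∑ i ∈ Finset.range n, (if i = 0 then (1 : ℝ) else 0) * 2 ^ i = 1 := by
        rw [Finset.sum_eq_single 0]
        · simp
        · intro i _ hi
          simp [hi]
        · intro h
          exact absurd h0 h
      rw [this]
      simp
      norm_num
  simp only [Phi, hx, hd, hd', mul_zero]

lemma Wj_inter (j : Fin 4) : (Wj j ∩ Wj (j + 1)).Nonempty := by
  obtain ⟨r, hr, hrr, ht⟩ := glue_zero
  obtain ⟨s, hs, s', hs', hss, hts, hts'⟩ := glue_half
  have hone : ((1 : ℝ) : Circ) = 0 := AddCircle.coe_period (1 : ℝ)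
  have mk : ∀ (i i' : Fin 4) (a b : ℝ), a ∈ Icc (-1 : ℝ) 1 → b ∈ Icc (-1 : ℝ) 1 →
      pmap (sg i) (off i) (a, 0) = pmap (sg i') (off i') (b, 0) → (Wj i ∩ Wj i').Nonempty := by
    intro i i' a b ha hb hab
    refine ⟨⟨pmap (sg i) (off i) (a, 0), pmap_mem (sg_sign i) (off_int i) (tsc_bar ha)⟩,
      ⟨(a, 0), tsc_bar ha, rfl⟩, ⟨(b, 0), tsc_bar hb, hab⟩⟩
  fin_cases j
  · apply mk 0 1 s s' hs hs'
    simp only [pmap, sg, off]
    refine Prod.ext ?_ ?_
    · simpa using hss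
    · change ((_ : ℝ) : Circ) = ((_ : ℝ) : Circ)
      congr 1
      simp [hts, hts']
      norm_num
  · apply mk 1 2 r r hr hr
    simp only [pmap, sg, off]
    refine Prod.ext ?_ ?_
    · simpa using hrr.symm
    · simp only [ht]
      simp
  · apply mk 2 3 s s' hs hs'
    simp only [pmap, sg, off]
    refine Prod.ext ?_ ?_
    · simpa using hss
    · change ((_ : ℝ) : Circ) = ((_ : ℝ) : Circ)
      congr 1
      simp [hts, hts']
      norm_num
  · apply mk 3 0 r r hr hr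
    simp only [pmap, sg, off]
    refine Prod.ext ?_ ?_
    · simpa using hrr.symm
    · simp only [ht]
      simp [hone]

/-- union of three consecutive pieces -/
lemma three (j : Fin 4) : IsConnected (Wj (j + 1) ∪ Wj (j + 2) ∪ Wj (j + 3)) := by
  have h1 := Wj_inter (j + 1)
  have h2 := Wj_inter (j + 2)
  have e1 : j + 1 + 1 = j + 2 := by rw [add_assoc]; rfl
  have e2 : j + 2 + 1 = j + 3 := by rw [add_assoc]; rfl
  rw [e1] at h1
  rw [e2] at h2
  apply IsConnected.union _ (IsConnected.union h1 (isConnected_Wj _) (isConnected_Wj _))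
    (isConnected_Wj _)
  obtain ⟨z, hz1, hz2⟩ := h2
  exact ⟨z, Or.inr hz1, hz2⟩

lemma exists_cont (q q' : Xset) : ∃ K : Set Xset, IsCompact K ∧ IsConnected K ∧ q ∈ K ∧ q' ∈ K ∧
    ∃ a₀ : Circ, ∀ z ∈ K, z.1.2 ≠ a₀ := by
  obtain ⟨i, hi⟩ := exists_Wj q
  obtain ⟨i', hi'⟩ := exists_Wj q'
  obtain ⟨k, hk, hk'⟩ : ∃ k : Fin 4, k ≠ i ∧ k ≠ i' := by
    have : ∀ i i' : Fin 4, ∃ k : Fin 4, k ≠ i ∧ k ≠ i' := by decide
    exact this i i'
  have hcase : ∀ l : Fin 4, l ≠ k → l = k + 1 ∨ l = k + 2 ∨ l = k + 3 := by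
    clear hk hk'
    revert k
    decide
  have hmem : ∀ l : Fin 4, l ≠ k → Wj l ⊆ Wj (k + 1) ∪ Wj (k + 2) ∪ Wj (k + 3) := by
    intro l hl z hz
    rcases hcase l hl with rfl | rfl | rfl
    · exact Or.inl (Or.inl hz)
    · exact Or.inl (Or.inr hz)
    · exact Or.inr hz
  have hne : k + 1 ≠ k ∧ k + 2 ≠ k ∧ k + 3 ≠ k := by
    clear hk hk' hcase hmem
    revert k
    decide
  refine ⟨Wj (k + 1) ∪ Wj (k + 2) ∪ Wj (k + 3),
    ((isCompact_Wj _).union (isCompact_Wj _)).union (isCompact_Wj _), three k,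
    hmem i hk.symm hi, hmem i' hk'.symm hi', mp k, ?_⟩
  rintro z ((hz | hz) | hz)
  · exact Wj_miss hne.1 hz
  · exact Wj_miss hne.2.1 hz
  · exact Wj_miss hne.2.2 hz

instance : ConnectedSpace Xset := by
  have : Nonempty Xset := ⟨⟨pmap 1 0 (0, 0), pmap_mem (Or.inl rfl) ⟨0, by simp⟩
    (tsc_bar ⟨by norm_num, by norm_num⟩)⟩⟩
  have hp : PreconnectedSpace Xset := by
    constructor
    apply isPreconnected_of_forall_pair
    intro x _ y _
    obtain ⟨K, -, hK, hx, hy, -⟩ := exists_cont x y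
    exact ⟨K, subset_univ _, hx, hy, hK.isPreconnected⟩
  exact { toPreconnectedSpace := hp, toNonempty := this }

/-- `X` is `δ`-connected. -/
theorem delta_X (x y : Xset) : ∃ K : Set Xset, IsCompact K ∧ IsConnected K ∧ x ∈ K ∧ y ∈ K ∧
        (∀ L : Set Xset, L ⊆ K → IsCompact L → IsConnected L → x ∈ L → y ∈ L → L = K) ∧
        (∀ M : Set Xset, M ⊆ K → IsCompact M → IsConnected M → M.Nontrivial →
          ∃ A B : Set Xset, A ⊆ M ∧ B ⊆ M ∧ A ≠ M ∧ B ≠ M ∧ IsCompact A ∧ IsConnected A ∧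
            IsCompact B ∧ IsConnected B ∧ A ∪ B = M) := by
  obtain ⟨K, hK, hKc, hx, hy, a₀, ha₀⟩ := exists_cont x y
  obtain ⟨L, hLK, hL, hLc, hxL, hyL, hmin⟩ := exists_irreducible hK hKc hx hy
  refine ⟨L, hL, hLc, hxL, hyL, hmin, ?_⟩
  intro M hML hM hMc hMnt
  exact decomp_X hM hMc hMnt (a₀ := a₀) fun q hq => ha₀ q (hLK (hML hq))

/-- `Y` is not `δ`-connected. -/
theorem not_delta_Y : ¬ (∀ x y : Yset, ∃ K : Set Yset, IsCompact K ∧ IsConnected K ∧ x ∈ K ∧ y ∈ K ∧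
        (∀ L : Set Yset, L ⊆ K → IsCompact L → IsConnected L → x ∈ L → y ∈ L → L = K) ∧
        (∀ M : Set Yset, M ⊆ K → IsCompact M → IsConnected M → M.Nontrivial →
          ∃ A B : Set Yset, A ⊆ M ∧ B ⊆ M ∧ A ≠ M ∧ B ≠ M ∧ IsCompact A ∧ IsConnected A ∧
            IsCompact B ∧ IsConnected B ∧ A ∪ B = M)) := by
  intro h
  obtain ⟨K, hK, hKc, h1, h2, -, hHD⟩ := h (endpt 1 (Or.inl rfl)) (endpt (-1) (Or.inr rfl))
  exact not_decomp_MY (hHD MY (MY_subset hK.isClosed hKc.isPreconnected h1 h2) isCompact_MY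
    isConnected_MY nontrivial_MY)

end Pool.Agent.DeltaConn
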